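import Pool.Agent.K1H14.SD.Stm2
import Pool.Agent.K1H59.SD.TR
import Pool.Agent.K1H85.SD.Avg

/-!
# Project SD: the type of the involution (S_SGN)
-/

namespace Pool.Agent.K1H49.SD

open Pool.Agent.K1H14.SD Pool.Agent.K1H14.KS

universe u

/-- the trace of `x ↦ B⁻¹ xᵀ B` for a symmetric matrix `B` -/
theorem trace_tau {N : ℕ} (B : Matrix (Fin N) (Fin N) ℂ) (hB : IsUnit B.det)
    (hs : B.transpose = B) (τ : Matrix (Fin N) (Fin N) ℂ →ₗ[ℂ] Matrix (Fin N) (Fin N) ℂ)
    (h : ∀ x, τ x = B⁻¹ * x.transpose * B) : LinearMap.trace ℂ _ τ = (N : ℂ) := by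
  have h1 : ∀ i j : Fin N, (B⁻¹ * (Matrix.single i j (1 : ℂ)).transpose * B) i j =
      B⁻¹ i j * B i j := by
    intro i j
    rw [Matrix.transpose_single, Matrix.mul_apply]
    rw [Finset.sum_eq_single i]
    · rw [Matrix.mul_apply, Finset.sum_eq_single j]
      · simp
      · intro k _ hk
        simp [Matrix.single_apply, hk.symm]
      · intro hk; exact absurd (Finset.mem_univ _) hk
    · intro k _ hk
      rw [Matrix.mul_apply, Finset.sum_eq_zero, zero_mul]
      intro l _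
      simp [Matrix.single_apply, hk.symm]
    · intro hk; exact absurd (Finset.mem_univ _) hk
  rw [LinearMap.trace_eq_matrix_trace ℂ (Matrix.stdBasis ℂ (Fin N) (Fin N)), Matrix.trace,
    Fintype.sum_prod_type]
  have h2 : ∀ i j : Fin N, (LinearMap.toMatrix (Matrix.stdBasis ℂ (Fin N) (Fin N))
      (Matrix.stdBasis ℂ (Fin N) (Fin N)) τ).diag (i, j) = B⁻¹ i j * B i j := by
    intro i j
    rw [Matrix.diag_apply, LinearMap.toMatrix_apply, Matrix.stdBasis_eq_single, h, ← h1 i j]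
    simp [Matrix.stdBasis]
  simp only [h2]
  have h3 : ∀ i : Fin N, ∑ j, B⁻¹ i j * B i j = (1 : Matrix (Fin N) (Fin N) ℂ) i i := by
    intro i
    rw [← Matrix.nonsing_inv_mul B hB, Matrix.mul_apply]
    refine Finset.sum_congr rfl fun j _ => ?_
    conv_lhs => rw [← hs]
    rw [Matrix.transpose_apply, hs]
  simp only [h3, Matrix.one_apply_eq]
  simp

/-- the powers of `1 + i` -/
theorem re_pow (d : ℕ) (hd : d % 8 = 3 ∨ d % 8 = 5) : ((1 + Complex.I) ^ d).re < 0 := by
  have h2 : (1 + Complex.I) ^ 2 = 2 * Complex.I := by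
    have := Complex.I_sq
    linear_combination this
  have h4 : (1 + Complex.I) ^ 4 = -4 := by
    have e : (1 + Complex.I) ^ 4 = ((1 + Complex.I) ^ 2) ^ 2 := by ring
    rw [e, h2, mul_pow, Complex.I_sq]; norm_num
  have h8 : (1 + Complex.I) ^ 8 = 16 := by
    have e : (1 + Complex.I) ^ 8 = ((1 + Complex.I) ^ 4) ^ 2 := by ring
    rw [e, h4]; norm_num
  have h3 : (1 + Complex.I) ^ 3 = -2 + 2 * Complex.I := by
    have e : (1 + Complex.I) ^ 3 = ((1 + Complex.I) ^ 2) * (1 + Complex.I) := by ring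
    rw [e, h2]
    linear_combination 2 * Complex.I_sq
  have h5 : (1 + Complex.I) ^ 5 = -4 - 4 * Complex.I := by
    have e : (1 + Complex.I) ^ 5 = ((1 + Complex.I) ^ 4) * (1 + Complex.I) := by ring
    rw [e, h4]; ring
  obtain ⟨m, hm⟩ : ∃ m, d = 8 * m + d % 8 := ⟨d / 8, (Nat.div_add_mod d 8).symm⟩
  have hpos : (0 : ℝ) < 16 ^ m := by positivity
  have key : ∀ z : ℂ, ((16 : ℂ) ^ m * z).re = 16 ^ m * z.re := by
    intro z
    have : ((16 : ℂ) ^ m * z) = (((16 : ℝ) ^ m : ℝ) : ℂ) * z := by push_cast; ring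
    rw [this, Complex.re_ofReal_mul]
  rcases hd with hd | hd
  · rw [hm, hd, pow_add, pow_mul, h8, h3, key]
    simp
  · rw [hm, hd, pow_add, pow_mul, h8, h5, key]
    simp

/-- the sum of the signs -/
theorem sum_sgn (d : ℕ) (hd : d % 8 = 3 ∨ d % 8 = 5) :
    ∑ K ∈ evs d, (-1 : ℝ) ^ (K.card / 2) < 0 := by
  have h1 := Fintype.sum_pow_mul_eq_add_pow (Fin d) Complex.I (1 : ℂ)
  rw [Fintype.card_fin] at h1
  have h2 : (∑ K : Finset (Fin d), Complex.I ^ K.card * (1 : ℂ) ^ (d - K.card)).re =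
      ∑ K ∈ evs d, (-1 : ℝ) ^ (K.card / 2) := by
    rw [Complex.re_sum, evs, Finset.sum_filter]
    refine Finset.sum_congr rfl fun K _ => ?_
    rw [one_pow, mul_one]
    split_ifs with h
    · obtain ⟨k, hk⟩ := h
      have e1 : K.card / 2 = k := by omega
      rw [e1, hk, ← two_mul, pow_mul, Complex.I_sq]
      have : ((-1 : ℂ) ^ k) = (((-1 : ℝ) ^ k : ℝ) : ℂ) := by push_cast; ring
      rw [this, Complex.ofReal_re]
    · rw [Nat.not_even_iff_odd] at h
      obtain ⟨k, hk⟩ := h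
      rw [hk, pow_succ, pow_mul, Complex.I_sq]
      have : ((-1 : ℂ) ^ k) = (((-1 : ℝ) ^ k : ℝ) : ℂ) := by push_cast; ring
      rw [this, Complex.re_ofReal_mul, Complex.I_re, mul_zero]
  rw [← h2, h1, add_comm]
  exact re_pow d hd

/-- the trace of the involution -/
theorem trace_st {A : Type u} [Ring A] [Algebra ℂ A] {d : ℕ} {M : Finset (Fin d) → A}
    {st : A →ₗ[ℂ] A} (hE : EvenCl M st) :
    LinearMap.trace ℂ A st = ((∑ K ∈ evs d, (-1 : ℝ) ^ (K.card / 2) : ℝ) : ℂ) := by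
  obtain ⟨hfd, tr, hT⟩ := Pool.Agent.K1H59.SD.t_TR M st hE
  have hexp := (Pool.Agent.K1H85.SD.t_AVG M st tr hE hT).2
  have htr1 : tr 1 = 1 := by
    have := hT.1 ∅ (by simp)
    rw [hE.one, if_pos rfl] at this
    exact this
  let f : Finset (Fin d) → (A →ₗ[ℂ] ℂ) := fun K => tr ∘ₗ LinearMap.mulLeft ℂ (st (M K))
  have h1 : st = ∑ K ∈ evs d, (f K).smulRight (st (M K)) := by
    ext x
    conv_lhs => rw [hexp x, map_sum]
    rw [LinearMap.sum_apply]
    refine Finset.sum_congr rfl fun K _ => ?_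
    rw [map_smul]
    simp [f]
  rw [h1, map_sum]
  push_cast
  refine Finset.sum_congr rfl fun K hK => ?_
  have hK' : Even K.card := by simpa [evs] using hK
  rw [LinearMap.trace_smulRight]
  show tr (st (M K) * st (M K)) = _
  conv_lhs => rw [hE.st_M K hK', mul_smul_comm, map_smul, ← hE.st_M K hK', hE.st_inv K hK', htr1]
  simp

/-- the involution is of symplectic type for `d = 3, 5` modulo `8` -/
theorem t_SGN : S_SGN.{u} := by
  intro A _ _ d M st N φ B hE hd hB hBs hst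
  rcases hBs with hs | hs
  · exfalso
    obtain ⟨hfd, -⟩ := Pool.Agent.K1H59.SD.t_TR M st hE
    have h1 : LinearMap.trace ℂ _ (φ.toLinearEquiv.conj st) = (N : ℂ) := by
      refine trace_tau B hB hs _ fun x => ?_
      rw [LinearEquiv.conj_apply]
      show φ (st (φ.symm x)) = _
      rw [hst, φ.apply_symm_apply]
    rw [LinearMap.trace_conj', trace_st hE] at h1
    have h2 := sum_sgn d hd
    have h3 : (∑ K ∈ evs d, (-1 : ℝ) ^ (K.card / 2)) = (N : ℝ) := by
      exact_mod_cast h1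
    have h4 : (0 : ℝ) ≤ (N : ℝ) := Nat.cast_nonneg N
    linarith
  · exact hs

end Pool.Agent.K1H49.SD
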